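import Pool.Agent.H37Thin.Main
import Pool.Agent.H37Thin.Rooted

/-!
# Thin spanning trees in multigraphs of bounded treewidth

A `k`-edge connected multigraph of treewidth at most `w` has a spanning tree of thinness
`48 w (w + 1) (4 w + 5) 6 ^ w / k`; so it has a `1/2`-thin spanning tree if
`k ≥ 96 w (w + 1) (4 w + 5) 6 ^ w`.
-/

namespace Pool.Agent.Results.MP_e3de44_co.BoundedTreewidth

open Finset Pool.Agent.H99Thin Pool.Agent.H37Thin

/-- A loopless multigraph on `V`: `mult u v` is the number of parallel edges joining `u` and `v`. -/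
structure MGraph (V : Type) where
  mult : V → V → ℕ
  symm : ∀ u v, mult u v = mult v u
  loopless : ∀ v, mult v v = 0

variable {V : Type} [Fintype V] [DecidableEq V]

/-- the number of edges with exactly one end in `A` -/
def MGraph.cut (G : MGraph V) (A : Finset V) : ℕ := ∑ u ∈ A, ∑ v ∈ Aᶜ, G.mult u v

/-- every cut has at least `k` edges -/
def MGraph.EdgeConnected (G : MGraph V) (k : ℕ) : Prop :=
  ∀ A : Finset V, A.Nonempty → A ≠ univ → k ≤ G.cut A

omit [Fintype V] [DecidableEq V] in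
/-- the treewidth is at most `w`: there is a tree decomposition, with nodes `ι`, a tree `D` on `ι` and
bags `X i` of at most `w + 1` vertices each -/
def MGraph.TreewidthLE (G : MGraph V) (w : ℕ) : Prop :=
  ∃ (ι : Type) (_ : Fintype ι) (D : SimpleGraph ι) (X : ι → Finset V), D.IsTree ∧
    (∀ v, ∃ i, v ∈ X i) ∧
    (∀ u v, 0 < G.mult u v → ∃ i, u ∈ X i ∧ v ∈ X i) ∧
    (∀ v, (D.induce {i | v ∈ X i}).Connected) ∧
    ∀ i, (X i).card ≤ w + 1

/-- `T` is a spanning tree of `G` (one of the parallel edges `uv` is in the tree when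
`T.Adj u v`) -/
def MGraph.IsSpanningTree (G : MGraph V) (T : SimpleGraph V) : Prop :=
  T.IsTree ∧ ∀ u v, T.Adj u v → 0 < G.mult u v

/-- the number of edges of `T` with exactly one end in `A` -/
noncomputable def treeCut (T : SimpleGraph V) (A : Finset V) : ℕ :=
  Set.ncard {p : V × V | p.1 ∈ A ∧ p.2 ∉ A ∧ T.Adj p.1 p.2}

/-- `T` is `α`-thin with respect to `G` -/
def MGraph.Thin (G : MGraph V) (T : SimpleGraph V) (α : ℝ) : Prop :=
  ∀ A : Finset V, A.Nonempty → A ≠ univ → (treeCut T A : ℝ) ≤ α * G.cut A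

theorem result [Nonempty V] (G : MGraph V) (k w : ℕ) (hk : 0 < k) (hconn : G.EdgeConnected k)
    (htw : G.TreewidthLE w) :
    ∃ T : SimpleGraph V, G.IsSpanningTree T ∧
      G.Thin T (48 * (w : ℝ) * ((w : ℝ) + 1) * (4 * (w : ℝ) + 5) * 6 ^ w / k) ∧
      (96 * w * (w + 1) * (4 * w + 5) * 6 ^ w ≤ k → G.Thin T (1 / 2)) := by
  classical
  obtain ⟨ι, _, D, X, hD, h1, h2, h3, h4⟩ := htw
  let m : V → V → ℝ := fun u v => (G.mult u v : ℝ)
  have hpos : ∀ u v, 0 < m u v → 0 < G.mult u v := by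
    intro u v huv
    have : (0 : ℝ) < (G.mult u v : ℝ) := huv
    exact_mod_cast this
  obtain ⟨po, top, hTD⟩ := exists_TD (m := m) (fun u v => Nat.cast_nonneg _)
    (fun u v => by
      show (G.mult u v : ℝ) = G.mult v u
      rw [G.symm]) D hD X h1 (fun u v huv => h2 u v (hpos u v huv))
    (fun v => (h3 v).preconnected) h4
  have hcut : ∀ A : Finset V, (G.cut A : ℝ) = E m A Aᶜ := by
    intro A
    unfold MGraph.cut E
    push_cast
    rfl
  have hk0 : (0 : ℝ) < k := by exact_mod_cast hk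
  have hconn' : ∀ A : Finset V, A.Nonempty → A ≠ univ → (k : ℝ) ≤ E m A Aᶜ := by
    intro A hA hA'
    rw [← hcut]
    exact_mod_cast hconn A hA hA'
  rcases Nat.eq_zero_or_pos w with rfl | hw
  · -- there are no edges, so no cuts
    have hno : ∀ A : Finset V, A.Nonempty → A ≠ univ → False := by
      intro A hA hA'
      have h5 := hconn A hA hA'
      have h6 : G.cut A = 0 := by
        unfold MGraph.cut
        refine sum_eq_zero fun u hu => sum_eq_zero fun v hv => ?_
        by_contra h7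
        obtain ⟨i, hi, hi'⟩ := h2 u v (Nat.pos_of_ne_zero h7)
        have h8 : u = v := card_le_one.1 (by simpa using h4 i) u hi v hi'
        rw [mem_compl, ← h8] at hv
        exact hv hu
      omega
    have hTD1 : TD m top (fun v i => v ∈ X i) 1 :=
      ⟨hTD.nn, hTD.symm, hTD.chain, hTD.root, hTD.top_al, hTD.le_top, hTD.conv, hTD.adj,
        fun z S hS => (hTD.wd z S hS).trans (by norm_num)⟩
    obtain ⟨T, hT, hTadj, -⟩ := main hTD1 one_pos hk0 hconn'
    exact ⟨T, ⟨hT, fun u v huv => hpos u v (hTadj u v huv)⟩,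
      fun A hA hA' => (hno A hA hA').elim, fun _ A hA hA' => (hno A hA hA').elim⟩
  obtain ⟨T, hT, hTadj, hTthin⟩ := main hTD hw hk0 hconn'
  have hthin : G.Thin T (48 * (w : ℝ) * ((w : ℝ) + 1) * (4 * (w : ℝ) + 5) * 6 ^ w / k) := by
    intro A _ _
    rw [hcut]
    exact hTthin A
  refine ⟨T, ⟨hT, fun u v huv => hpos u v (hTadj u v huv)⟩, hthin, fun hkw A hA hA' => ?_⟩
  refine (hthin A hA hA').trans (mul_le_mul_of_nonneg_right ?_ (Nat.cast_nonneg _))
  rw [div_le_div_iff₀ hk0 (by norm_num)]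
  have h5 : (96 * (w : ℝ) * ((w : ℝ) + 1) * (4 * (w : ℝ) + 5) * 6 ^ w) ≤ k := by
    exact_mod_cast hkw
  linarith

end Pool.Agent.Results.MP_e3de44_co.BoundedTreewidth
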