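import Pool.Agent.H37Thin.Rooted
import Pool.Agent.H89Q.Glue

/-!
# Thin spanning trees in multigraphs with expanding parts and a quotient of bounded treewidth

A `k`-edge connected multigraph whose vertex set is partitioned into `φ`-expanding sets such that
contracting these sets gives a multigraph of treewidth at most `w` has a spanning tree of thinness
`200 w (w + 1) (4 w + 5) 6 ^ w / (φ ^ 2 k)`.
-/

namespace Pool.Agent.Results.MP_e3de44_co.ExpandingParts

open Finset

/-- A loopless multigraph on `V`: `mult u v` is the number of parallel edges joining `u` and `v`. -/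
structure MGraph (V : Type) where
  mult : V → V → ℕ
  symm : ∀ u v, mult u v = mult v u
  loopless : ∀ v, mult v v = 0

variable {V : Type} [Fintype V] [DecidableEq V]

/-- the number of edges joining the disjoint sets `A` and `B` -/
def MGraph.between (G : MGraph V) (A B : Finset V) : ℕ := ∑ u ∈ A, ∑ v ∈ B, G.mult u v

/-- the number of edges with exactly one end in `A` -/
def MGraph.cut (G : MGraph V) (A : Finset V) : ℕ := ∑ u ∈ A, ∑ v ∈ Aᶜ, G.mult u v

/-- the sum of the degrees of the vertices of `A` -/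
def MGraph.vol (G : MGraph V) (A : Finset V) : ℕ := ∑ u ∈ A, ∑ v, G.mult u v

/-- every cut has at least `k` edges -/
def MGraph.EdgeConnected (G : MGraph V) (k : ℕ) : Prop :=
  ∀ A : Finset V, A.Nonempty → A ≠ univ → k ≤ G.cut A

/-- the set `U` is `φ`-expanding: every subset `B` of `U` sends at least `φ` times the smaller of the
volumes of `B` and `U \ B` edges to `U \ B` -/
def MGraph.Expanding (G : MGraph V) (φ : ℝ) (U : Finset V) : Prop :=
  ∀ B ⊆ U, φ * min (G.vol B : ℝ) (G.vol (U \ B)) ≤ G.between B (U \ B)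

/-- the quotient: every class of `f` is contracted to one vertex (and the loops are deleted) -/
def MGraph.quotient (G : MGraph V) {l : ℕ} (f : V → Fin l) : MGraph (Fin l) where
  mult a b := if a = b then 0 else
    ∑ u ∈ univ.filter (fun v => f v = a), ∑ v ∈ univ.filter (fun v => f v = b), G.mult u v
  symm a b := by
    by_cases h : a = b
    · rw [if_pos h, if_pos h.symm]
    · rw [if_neg h, if_neg (Ne.symm h), Finset.sum_comm]
      exact Finset.sum_congr rfl fun v _ => Finset.sum_congr rfl fun u _ => G.symm u v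
  loopless a := if_pos rfl

omit [Fintype V] [DecidableEq V] in
/-- the treewidth is at most `w`: there is a tree decomposition, with nodes `ι`, a tree `D` on `ι` and
bags `X i` of at most `w + 1` vertices each -/
def MGraph.TreewidthLE (G : MGraph V) (w : ℕ) : Prop :=
  ∃ (ι : Type) (_ : Fintype ι) (D : SimpleGraph ι) (X : ι → Finset V), D.IsTree ∧
    (∀ v, ∃ i, v ∈ X i) ∧
    (∀ u v, 0 < G.mult u v → ∃ i, u ∈ X i ∧ v ∈ X i) ∧
    (∀ v, (D.induce {i | v ∈ X i}).Connected) ∧
    ∀ i, (X i).card ≤ w + 1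

/-- `T` is a spanning tree of `G` (one of the parallel edges `uv` is in the tree when
`T.Adj u v`) -/
def MGraph.IsSpanningTree (G : MGraph V) (T : SimpleGraph V) : Prop :=
  T.IsTree ∧ ∀ u v, T.Adj u v → 0 < G.mult u v

/-- the number of edges of `T` with exactly one end in `A` -/
noncomputable def treeCut (T : SimpleGraph V) (A : Finset V) : ℕ :=
  Set.ncard {p : V × V | p.1 ∈ A ∧ p.2 ∉ A ∧ T.Adj p.1 p.2}

/-- `T` is `α`-thin with respect to `G` -/
def MGraph.Thin (G : MGraph V) (T : SimpleGraph V) (α : ℝ) : Prop :=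
  ∀ A : Finset V, A.Nonempty → A ≠ univ → (treeCut T A : ℝ) ≤ α * G.cut A

theorem result [Nonempty V] (G : MGraph V) (k w l : ℕ) (φ : ℝ) (hk : 0 < k) (hw : 0 < w)
    (hφ : 0 < φ) (hφ1 : φ ≤ 1) (hconn : G.EdgeConnected k) (f : V → Fin l)
    (hf : Function.Surjective f)
    (hexp : ∀ i, G.Expanding φ (univ.filter fun v => f v = i))
    (htw : (G.quotient f).TreewidthLE w) :
    ∃ T : SimpleGraph V, G.IsSpanningTree T ∧
      G.Thin T (200 * (w : ℝ) * ((w : ℝ) + 1) * (4 * (w : ℝ) + 5) * 6 ^ w / (φ ^ 2 * k)) ∧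
      (400 * (w : ℝ) * ((w : ℝ) + 1) * (4 * (w : ℝ) + 5) * 6 ^ w / φ ^ 2 ≤ k →
        G.Thin T (1 / 2)) := by
  classical
  rcases subsingleton_or_nontrivial V with hsub | hnt
  · have hno : ∀ A : Finset V, A.Nonempty → A ≠ univ → False := by
      intro A hA hA'
      apply hA'
      obtain ⟨a, ha⟩ := hA
      exact Finset.eq_univ_of_forall fun v => by rw [Subsingleton.elim v a]; exact ha
    refine ⟨⊥, ⟨⟨?_, SimpleGraph.isAcyclic_bot⟩, fun u v h => absurd h (by simp)⟩,
      fun A hA hA' => (hno A hA hA').elim, fun _ A hA hA' => (hno A hA hA').elim⟩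
    rw [SimpleGraph.connected_iff]
    exact ⟨fun u v => by rw [Subsingleton.elim u v], inferInstance⟩
  -- the weights
  let W : V → V → ℝ := fun u v => (G.mult u v : ℝ)
  have hW : ∀ u v, 0 ≤ W u v := fun u v => Nat.cast_nonneg _
  have hcut : ∀ A : Finset V, (G.cut A : ℝ) = Pool.Agent.H85.Thin.cut W A := by
    intro A
    unfold MGraph.cut Pool.Agent.H85.Thin.cut Pool.Agent.H85.Thin.E
    rw [Finset.compl_eq_univ_sdiff]
    push_cast
    rfl
  have hvol : ∀ A : Finset V, (G.vol A : ℝ) = Pool.Agent.H85.Thin.E W A univ := by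
    intro A
    unfold MGraph.vol Pool.Agent.H85.Thin.E
    push_cast
    rfl
  have hbet : ∀ A B : Finset V, (G.between A B : ℝ) = Pool.Agent.H85.Thin.E W A B := by
    intro A B
    unfold MGraph.between Pool.Agent.H85.Thin.E
    push_cast
    rfl
  have hk0 : (0 : ℝ) < k := by exact_mod_cast hk
  have hdeg : ∀ v, (k : ℝ) ≤ Pool.Agent.H85.Thin.E W {v} univ := by
    intro v
    have h1 : (k : ℝ) ≤ G.cut {v} := by
      have h2 : ({v} : Finset V) ≠ univ := by
        intro h
        obtain ⟨u, hu⟩ := exists_ne v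
        have : u ∈ ({v} : Finset V) := by rw [h]; exact Finset.mem_univ _
        exact hu (Finset.mem_singleton.1 this)
      exact_mod_cast hconn {v} (Finset.singleton_nonempty v) h2
    rw [hcut] at h1
    exact h1.trans (Pool.Agent.H85.Thin.cut_le_vol hW _)
  have hpart : ∀ i, univ.filter (fun v => f v = i) = Pool.Agent.H85.Thin.part f i := fun i => rfl
  -- the quotient
  let m : Fin l → Fin l → ℝ := fun a b => ((G.quotient f).mult a b : ℝ)
  have hm : ∀ a b, a ≠ b → m a b = Pool.Agent.H85.Thin.E W (Pool.Agent.H85.Thin.part f a)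
      (Pool.Agent.H85.Thin.part f b) := by
    intro a b hab
    show (((if a = b then 0 else
      ∑ u ∈ univ.filter (fun v => f v = a), ∑ v ∈ univ.filter (fun v => f v = b), G.mult u v) :
        ℕ) : ℝ) = _
    rw [if_neg hab]
    unfold Pool.Agent.H85.Thin.E
    push_cast
    rfl
  have hmn : ∀ a b, a ≠ b → (G.quotient f).mult a b =
      ∑ u ∈ Pool.Agent.H85.Thin.part f a, ∑ v ∈ Pool.Agent.H85.Thin.part f b, G.mult u v :=
    fun a b hab => if_neg hab
  have hmpos : ∀ a b, 0 < m a b → 0 < (G.quotient f).mult a b := by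
    intro a b h
    have h' : (0 : ℝ) < ((G.quotient f).mult a b : ℝ) := h
    exact_mod_cast h'
  have hmne : ∀ a b, 0 < m a b → a ≠ b := by
    intro a b h hab
    have h1 := hmpos a b h
    rw [hab, (G.quotient f).loopless] at h1
    exact lt_irrefl _ h1
  have hmE : ∀ A' : Finset (Fin l), Pool.Agent.H99Thin.E m A' A'ᶜ = ∑ a ∈ A', ∑ b ∈ A'ᶜ,
      Pool.Agent.H85.Thin.E W (Pool.Agent.H85.Thin.part f a) (Pool.Agent.H85.Thin.part f b) := by
    intro A'
    unfold Pool.Agent.H99Thin.E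
    refine sum_congr rfl fun a ha => sum_congr rfl fun b hb => hm a b ?_
    intro h
    rw [h] at ha
    exact (mem_compl.1 hb) ha
  have hconnQ : ∀ A' : Finset (Fin l), A'.Nonempty → A' ≠ univ →
      (k : ℝ) ≤ Pool.Agent.H99Thin.E m A' A'ᶜ := by
    intro A' hA1 hA2
    have h1 : k ≤ G.cut (univ.filter fun x => f x ∈ A') := by
      refine hconn _ ?_ ?_
      · obtain ⟨a, ha⟩ := hA1
        obtain ⟨x, hx⟩ := hf a
        exact ⟨x, mem_filter.2 ⟨mem_univ _, by rw [hx]; exact ha⟩⟩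
      · intro h
        apply hA2
        refine Finset.eq_univ_of_forall fun a => ?_
        obtain ⟨x, hx⟩ := hf a
        have h2 : x ∈ univ.filter fun x => f x ∈ A' := by rw [h]; exact mem_univ _
        rw [← hx]
        exact (mem_filter.1 h2).2
    have h2 : (k : ℝ) ≤ G.cut (univ.filter fun x => f x ∈ A') := by exact_mod_cast h1
    refine h2.trans (le_of_eq ?_)
    rw [hcut, hmE]
    have e1 : ∀ (X : Finset (Fin l)) (F : V → ℝ), ∑ a ∈ X,
        ∑ u ∈ Pool.Agent.H85.Thin.part f a, F u = ∑ u ∈ univ.filter (fun x => f x ∈ X), F u := by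
      intro X F
      rw [← Finset.sum_fiberwise_of_maps_to (s := univ.filter (fun x => f x ∈ X)) (t := X)
        (g := f) (fun v hv => (mem_filter.1 hv).2)]
      refine sum_congr rfl fun a ha => sum_congr ?_ fun _ _ => rfl
      ext x
      simp only [Pool.Agent.H85.Thin.mem_part, mem_filter, mem_univ, true_and]
      constructor
      · intro h
        rw [h]
        exact ⟨ha, rfl⟩
      · exact fun h => h.2
    have e2 : (univ.filter fun x => f x ∈ A'ᶜ) = univ \ univ.filter fun x => f x ∈ A' := by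
      ext x
      simp only [mem_filter, mem_univ, true_and, mem_compl, mem_sdiff]
    unfold Pool.Agent.H85.Thin.cut Pool.Agent.H85.Thin.E
    symm
    calc ∑ a ∈ A', ∑ b ∈ A'ᶜ, ∑ u ∈ Pool.Agent.H85.Thin.part f a,
          ∑ v ∈ Pool.Agent.H85.Thin.part f b, W u v
        = ∑ a ∈ A', ∑ u ∈ Pool.Agent.H85.Thin.part f a, ∑ b ∈ A'ᶜ,
          ∑ v ∈ Pool.Agent.H85.Thin.part f b, W u v := sum_congr rfl fun a _ => sum_comm
      _ = ∑ u ∈ univ.filter (fun x => f x ∈ A'), ∑ b ∈ A'ᶜ,
          ∑ v ∈ Pool.Agent.H85.Thin.part f b, W u v := e1 A' _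
      _ = ∑ u ∈ univ.filter (fun x => f x ∈ A'), ∑ v ∈ univ \ univ.filter fun x => f x ∈ A',
          W u v := by
          refine sum_congr rfl fun u _ => ?_
          rw [e1 A'ᶜ, e2]
  obtain ⟨ι, _, D, X, hD, t1, t2, t3, t4⟩ := htw
  obtain ⟨po, top, hTD⟩ := Pool.Agent.H37Thin.exists_TD (m := m) (fun u v => Nat.cast_nonneg _)
    (fun u v => by
      show ((G.quotient f).mult u v : ℝ) = (G.quotient f).mult v u
      rw [(G.quotient f).symm]) D hD X t1 (fun u v huv => t2 u v (hmpos u v huv))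
    (fun v => (t3 v).preconnected) t4
  obtain ⟨n, g, hg1, hg2, hg3, hg4, hg5⟩ := Pool.Agent.H89Q.jobs hTD hw hk0 hconnQ
  -- the size of the bundles
  have hw0 : (1 : ℝ) ≤ w := by exact_mod_cast hw
  set q : ℕ := ⌈(k : ℝ) / (2 * w)⌉₊ with hqdef
  have hq1 : 0 < q := by
    rw [hqdef, Nat.ceil_pos]
    positivity
  have hqk : (k : ℝ) / (2 * w) ≤ q := Nat.le_ceil _
  have hNreal : ∀ i < n, k / (2 * (w : ℝ)) ≤
      ((∑ e ∈ g i, ∑ u ∈ Pool.Agent.H85.Thin.part f e.1,
        ∑ v ∈ Pool.Agent.H85.Thin.part f e.2, G.mult u v : ℕ) : ℝ) := by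
    intro i hi
    refine (hg2 i hi).trans (le_of_eq ?_)
    rw [Nat.cast_sum]
    refine sum_congr rfl fun e he => ?_
    show ((G.quotient f).mult e.1 e.2 : ℝ) = _
    rw [hmn e.1 e.2 (hmne _ _ (hg1 i hi e he))]
  have hcard : ∀ i < n, q ≤ ∑ e ∈ g i, ∑ u ∈ Pool.Agent.H85.Thin.part f e.1,
      ∑ v ∈ Pool.Agent.H85.Thin.part f e.2, G.mult u v := fun i hi => Nat.ceil_le.2 (hNreal i hi)
  set a : ℝ := 96 * (w : ℝ) * (w + 1) * (4 * w + 5) * 6 ^ w with ha
  have ha0 : 864 * (w : ℝ) ≤ a / 12 := by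
    have h1 : (6 : ℝ) ^ 1 ≤ 6 ^ w := pow_le_pow_right₀ (by norm_num) hw
    have h2 : (18 : ℝ) ≤ (w + 1) * (4 * w + 5) := by nlinarith
    have h3 : (18 : ℝ) * 6 ≤ (w + 1) * (4 * w + 5) * 6 ^ w := by
      have := mul_le_mul h2 h1 (by norm_num) (by nlinarith)
      linarith
    have h4 := mul_le_mul_of_nonneg_left h3 (by linarith : (0 : ℝ) ≤ 8 * w)
    have h5 : a / 12 = 8 * w * ((w + 1) * (4 * w + 5) * 6 ^ w) := by
      rw [ha]
      ring
    rw [h5]
    linarith
  have ha1 : 0 ≤ a := by positivity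
  obtain ⟨T, hT1, hT2, hT3⟩ := Pool.Agent.H89Q.glue G.mult G.symm hk0 hφ hφ1 hdeg f
    (fun i => by
      obtain ⟨x, hx⟩ := hf i
      exact ⟨x, Pool.Agent.H85.Thin.mem_part.2 hx⟩)
    (fun i B hB => by
      have h1 := hexp i B (by rw [hpart]; exact hB)
      rw [hpart, hvol, hvol, hbet] at h1
      rcases le_total (Pool.Agent.H85.Thin.E W B univ)
        (Pool.Agent.H85.Thin.E W (Pool.Agent.H85.Thin.part f i \ B) univ) with h | h
      · rw [min_eq_left h] at h1
        exact Or.inl h1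
      · rw [min_eq_right h] at h1
        exact Or.inr h1)
    hq1 g (fun i hi e he => hmne _ _ (hg1 i hi e he)) hcard hg3
    hg4 (α := a / k) (by positivity) (fun ch hch A' J hJ => by
      have h1 := hg5 ch hch A'
      rw [hmE] at h1
      refine le_trans ?_ h1
      have h2 : J.card ≤ ((range n).filter fun i => Pool.Agent.H89Q.Cross A' (ch i)).card :=
        card_le_card fun i hi => mem_filter.2 ⟨mem_range.2 (hJ i hi).1, (hJ i hi).2⟩
      exact_mod_cast h2)
  -- the final estimate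
  have hq0 : (0 : ℝ) < q := by exact_mod_cast hq1
  have hinvq : 1 / (q : ℝ) ≤ 2 * w * (1 / k) := by
    have h1 : 2 * (w : ℝ) * (1 / k) = 1 / (k / (2 * w)) := by
      field_simp
    rw [h1]
    exact one_div_le_one_div_of_le (by positivity) hqk
  have hbound : a / k * (1 + 1 / φ) + 2 * (1 / q + 4 / k) / φ + 5 / (φ ^ 2 * k) ≤
      200 * (w : ℝ) * ((w : ℝ) + 1) * (4 * (w : ℝ) + 5) * 6 ^ w / (φ ^ 2 * k) := by
    have hφ2 : 0 < φ ^ 2 := by positivity
    have hφinv : 1 / φ ≤ 1 / φ ^ 2 := by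
      apply one_div_le_one_div_of_le hφ2
      nlinarith
    have hφ3 : 1 ≤ 1 / φ ^ 2 := by
      rw [le_div_iff₀ hφ2]
      nlinarith
    have e1 : a / k * (1 + 1 / φ) ≤ 2 * a * (1 / φ ^ 2 * (1 / k)) := by
      have h2 : 1 + 1 / φ ≤ 2 * (1 / φ ^ 2) := by linarith
      have h3 := mul_le_mul_of_nonneg_left h2 (by positivity : 0 ≤ a / k)
      refine h3.trans (le_of_eq ?_)
      ring
    have e2 : 2 * (1 / (q : ℝ) + 4 / k) / φ ≤ (4 * w + 8) * (1 / φ ^ 2 * (1 / k)) := by
      have h1 : 1 / (q : ℝ) + 4 / k ≤ (2 * w + 4) * (1 / k) := by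
        have h2 : 4 / (k : ℝ) = 4 * (1 / k) := by ring
        rw [h2]
        linarith
      have h3 : 2 * (1 / (q : ℝ) + 4 / k) / φ = 2 * ((1 / (q : ℝ) + 4 / k) * (1 / φ)) := by ring
      rw [h3]
      have h4 := mul_le_mul h1 hφinv (by positivity) (by positivity)
      nlinarith
    have e3 : 5 / (φ ^ 2 * k) = 5 * (1 / φ ^ 2 * (1 / k)) := by
      field_simp
    have e4 : 200 * (w : ℝ) * ((w : ℝ) + 1) * (4 * (w : ℝ) + 5) * 6 ^ w / (φ ^ 2 * k) =
        (2 * a + a / 12) * (1 / φ ^ 2 * (1 / k)) := by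
      rw [ha]
      field_simp
      ring
    rw [e4]
    have h5 : 0 ≤ 1 / φ ^ 2 * (1 / (k : ℝ)) := by positivity
    have h6 : (4 * (w : ℝ) + 8 + 5) * (1 / φ ^ 2 * (1 / k)) ≤
        a / 12 * (1 / φ ^ 2 * (1 / k)) := by
      apply mul_le_mul_of_nonneg_right _ h5
      linarith
    nlinarith
  have hthin : G.Thin T
      (200 * (w : ℝ) * ((w : ℝ) + 1) * (4 * (w : ℝ) + 5) * 6 ^ w / (φ ^ 2 * k)) := by
    intro A _ _
    refine (hT3 A).trans ?_
    rw [hcut]
    refine mul_le_mul_of_nonneg_right hbound ?_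
    rw [← hcut]
    exact Nat.cast_nonneg _
  refine ⟨T, ⟨hT1, hT2⟩, hthin, fun hkw A hA hA' => ?_⟩
  refine (hthin A hA hA').trans (mul_le_mul_of_nonneg_right ?_ (Nat.cast_nonneg _))
  have hφ2 : 0 < φ ^ 2 := by positivity
  set b : ℝ := (w : ℝ) * ((w : ℝ) + 1) * (4 * (w : ℝ) + 5) * 6 ^ w with hb
  have hb0 : 0 ≤ b := by positivity
  have h1 : 400 * (w : ℝ) * ((w : ℝ) + 1) * (4 * (w : ℝ) + 5) * 6 ^ w / φ ^ 2 = 400 * b / φ ^ 2 := by
    rw [hb]
    ring
  have h2 : 200 * (w : ℝ) * ((w : ℝ) + 1) * (4 * (w : ℝ) + 5) * 6 ^ w = 200 * b := by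
    rw [hb]
    ring
  rw [h1, div_le_iff₀ hφ2] at hkw
  rw [h2, div_le_div_iff₀ (by positivity) (by norm_num)]
  linarith

end Pool.Agent.Results.MP_e3de44_co.ExpandingParts
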