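import Pool.Agent.H89P.Main
import Pool.Agent.H89P.GlueL

/-!
# Thin spanning trees in multigraphs with expanding parts and a quotient on a surface

A `k`-edge connected multigraph whose vertex set is partitioned into `φ`-expanding sets such that
contracting these sets gives a multigraph embedded in a surface of Euler genus at most `g` has a
spanning tree of thinness `160 (g + 1) / (φ ^ 2 k)`.
-/

namespace Pool.Agent.Results.MP_e3de44_co.SurfaceParts

open Finset

/-- A loopless multigraph on `V`: `mult u v` is the number of parallel edges joining `u` and `v`. -/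
structure MGraph (V : Type) where
  mult : V → V → ℕ
  symm : ∀ u v, mult u v = mult v u
  loopless : ∀ v, mult v v = 0

variable {V : Type} [Fintype V] [DecidableEq V]

/-- the number of edges joining the disjoint sets `A` and `B` -/
def MGraph.between (G : MGraph V) (A B : Finset V) : ℕ := ∑ u ∈ A, ∑ v ∈ B, G.mult u v

/-- the number of edges with exactly one end in `A` -/
def MGraph.cut (G : MGraph V) (A : Finset V) : ℕ := ∑ u ∈ A, ∑ v ∈ Aᶜ, G.mult u v

/-- the sum of the degrees of the vertices of `A` -/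
def MGraph.vol (G : MGraph V) (A : Finset V) : ℕ := ∑ u ∈ A, ∑ v, G.mult u v

/-- every cut has at least `k` edges -/
def MGraph.EdgeConnected (G : MGraph V) (k : ℕ) : Prop :=
  ∀ A : Finset V, A.Nonempty → A ≠ univ → k ≤ G.cut A

/-- the set `U` is `φ`-expanding: every subset `B` of `U` sends at least `φ` times the smaller of the
volumes of `B` and `U \ B` edges to `U \ B` -/
def MGraph.Expanding (G : MGraph V) (φ : ℝ) (U : Finset V) : Prop :=
  ∀ B ⊆ U, φ * min (G.vol B : ℝ) (G.vol (U \ B)) ≤ G.between B (U \ B)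

/-- the quotient: every class of `f` is contracted to one vertex (and the loops are deleted) -/
def MGraph.quotient (G : MGraph V) {l : ℕ} (f : V → Fin l) : MGraph (Fin l) where
  mult a b := if a = b then 0 else
    ∑ u ∈ univ.filter (fun v => f v = a), ∑ v ∈ univ.filter (fun v => f v = b), G.mult u v
  symm a b := by
    by_cases h : a = b
    · rw [if_pos h, if_pos h.symm]
    · rw [if_neg h, if_neg (Ne.symm h), Finset.sum_comm]
      exact Finset.sum_congr rfl fun v _ => Finset.sum_congr rfl fun u _ => G.symm u v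
  loopless a := if_pos rfl

/-- the edges of the multigraph `H`, one by one: `(a, b, j)` with `a < b` and `j < H.mult a b` -/
def MGraph.edges {l : ℕ} (H : MGraph (Fin l)) : Finset (Fin l × Fin l × ℕ) :=
  ((univ : Finset (Fin l × Fin l)).filter fun p => p.1 < p.2).biUnion fun p =>
    (range (H.mult p.1 p.2)).image fun j => (p.1, p.2, j)

/-- the edges of `H` with exactly one end in `A` -/
def MGraph.edgeCut {l : ℕ} (H : MGraph (Fin l)) (A : Finset (Fin l)) :
    Finset (Fin l × Fin l × ℕ) :=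
  H.edges.filter fun e => (e.1 ∈ A ∧ e.2.1 ∉ A) ∨ (e.1 ∉ A ∧ e.2.1 ∈ A)

/-- Every edge `e` has two sides, `side false e` and `side true e`, each of them at a face. The set
`C` of edges meets every face an even number of times. -/
def MeetsEvenly {l : ℕ} {Φ : Type} [DecidableEq Φ] (side : Bool → Fin l × Fin l × ℕ → Φ)
    (C : Finset (Fin l × Fin l × ℕ)) : Prop :=
  ∀ x, Even (∑ e ∈ C, ((if side false e = x then 1 else 0) + (if side true e = x then 1 else 0)))

/-- `H` is embedded in a surface of Euler genus at most `g`, in combinatorial form: the edges have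
their sides at finitely many faces such that every cut meets every face evenly, and modulo cuts
there are at most `2 ^ g` sets of edges which meet every face evenly. For `g = 0`: the sets of edges
which meet every face evenly are exactly the cuts (`H` has a dual, it is planar). -/
def MGraph.EulerGenusLE {l : ℕ} (H : MGraph (Fin l)) (g : ℕ) : Prop :=
  ∃ (Φ : Type) (_ : Fintype Φ) (_ : DecidableEq Φ) (side : Bool → Fin l × Fin l × ℕ → Φ),
    (∀ A, MeetsEvenly side (H.edgeCut A)) ∧
    ∃ cls : Finset (Fin l × Fin l × ℕ) → Fin (2 ^ g), ∀ C ⊆ H.edges, ∀ C' ⊆ H.edges,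
      MeetsEvenly side C → MeetsEvenly side C' → cls C = cls C' →
        ∃ A, symmDiff C C' = H.edgeCut A

/-- `T` is a spanning tree of `G` (one of the parallel edges `uv` is in the tree when
`T.Adj u v`) -/
def MGraph.IsSpanningTree (G : MGraph V) (T : SimpleGraph V) : Prop :=
  T.IsTree ∧ ∀ u v, T.Adj u v → 0 < G.mult u v

/-- the number of edges of `T` with exactly one end in `A` -/
noncomputable def treeCut (T : SimpleGraph V) (A : Finset V) : ℕ :=
  Set.ncard {p : V × V | p.1 ∈ A ∧ p.2 ∉ A ∧ T.Adj p.1 p.2}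

/-- `T` is `α`-thin with respect to `G` -/
def MGraph.Thin (G : MGraph V) (T : SimpleGraph V) (α : ℝ) : Prop :=
  ∀ A : Finset V, A.Nonempty → A ≠ univ → (treeCut T A : ℝ) ≤ α * G.cut A

theorem mem_edges {l : ℕ} {H : MGraph (Fin l)} {e : Fin l × Fin l × ℕ} :
    e ∈ H.edges ↔ e.1 < e.2.1 ∧ e.2.2 < H.mult e.1 e.2.1 := by
  obtain ⟨u, v, j⟩ := e
  unfold MGraph.edges
  simp only [mem_biUnion, mem_filter, mem_univ, true_and, mem_image, mem_range, Prod.mk.injEq]
  constructor
  · rintro ⟨⟨a, b⟩, h1, j', h2, rfl, rfl, rfl⟩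
    exact ⟨h1, h2⟩
  · rintro ⟨h1, h2⟩
    exact ⟨(u, v), h1, j, h2, rfl, rfl, rfl⟩

/-- the number of edges with exactly one end in `A` -/
theorem card_edgeCut {l : ℕ} (H : MGraph (Fin l)) (A : Finset (Fin l)) :
    (H.edgeCut A).card = ∑ a ∈ A, ∑ b ∈ Aᶜ, H.mult a b := by
  have h0 : H.edgeCut A = ((univ : Finset (Fin l × Fin l)).filter fun p => p.1 < p.2 ∧
      ((p.1 ∈ A ∧ p.2 ∉ A) ∨ (p.1 ∉ A ∧ p.2 ∈ A))).biUnion fun p =>
      (range (H.mult p.1 p.2)).image fun j => (p.1, p.2, j) := by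
    ext e
    obtain ⟨u, v, j⟩ := e
    unfold MGraph.edgeCut
    rw [mem_filter, mem_edges]
    simp only [mem_biUnion, mem_filter, mem_univ, true_and, mem_image, mem_range, Prod.mk.injEq]
    constructor
    · rintro ⟨⟨h1, h2⟩, h3⟩
      exact ⟨(u, v), ⟨h1, h3⟩, j, h2, rfl, rfl, rfl⟩
    · rintro ⟨⟨a, b⟩, ⟨h1, h3⟩, j', h2, rfl, rfl, rfl⟩
      exact ⟨⟨h1, h2⟩, h3⟩
  have h1 : ∀ p : Fin l × Fin l, ((range (H.mult p.1 p.2)).image fun j => (p.1, p.2, j)).card =
      H.mult p.1 p.2 := by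
    intro p
    rw [card_image_of_injective, card_range]
    intro a b h
    simpa using h
  rw [h0, card_biUnion]
  swap
  · intro p _ p' _ hpp'
    rw [Function.onFun, disjoint_left]
    intro x hx hx'
    obtain ⟨j, _, rfl⟩ := mem_image.1 hx
    obtain ⟨j', _, h⟩ := mem_image.1 hx'
    simp only [Prod.mk.injEq] at h
    exact hpp' (Prod.ext h.1.symm h.2.1.symm)
  rw [sum_congr rfl fun p _ => h1 p, ← sum_product']
  -- split by the order
  have h2 : ∑ p ∈ A ×ˢ Aᶜ, H.mult p.1 p.2 =
      ∑ p ∈ (A ×ˢ Aᶜ).filter (fun p => p.1 < p.2), H.mult p.1 p.2 +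
      ∑ p ∈ (A ×ˢ Aᶜ).filter (fun p => ¬ p.1 < p.2), H.mult p.1 p.2 :=
    (sum_filter_add_sum_filter_not _ _ _).symm
  have h3 : ∑ p ∈ (A ×ˢ Aᶜ).filter (fun p => ¬ p.1 < p.2), H.mult p.1 p.2 =
      ∑ p ∈ (Aᶜ ×ˢ A).filter (fun p => p.1 < p.2), H.mult p.1 p.2 := by
    refine sum_bij (fun p _ => (p.2, p.1)) ?_ ?_ ?_ ?_
    · intro p hp
      rw [mem_filter, mem_product, mem_compl] at hp
      rw [mem_filter, mem_product, mem_compl]
      refine ⟨⟨hp.1.2, hp.1.1⟩, ?_⟩
      rcases lt_trichotomy p.1 p.2 with h | h | h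
      · exact absurd h hp.2
      · exact absurd (h ▸ hp.1.1) hp.1.2
      · exact h
    · intro p _ p' _ h
      simp only [Prod.mk.injEq] at h
      exact Prod.ext h.2 h.1
    · intro p hp
      rw [mem_filter, mem_product, mem_compl] at hp
      refine ⟨(p.2, p.1), ?_, rfl⟩
      rw [mem_filter, mem_product, mem_compl]
      exact ⟨⟨hp.1.2, hp.1.1⟩, not_lt.2 hp.2.le⟩
    · intro p _
      exact H.symm _ _
  have h4 : (univ : Finset (Fin l × Fin l)).filter (fun p => p.1 < p.2 ∧
      ((p.1 ∈ A ∧ p.2 ∉ A) ∨ (p.1 ∉ A ∧ p.2 ∈ A))) =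
      (A ×ˢ Aᶜ).filter (fun p => p.1 < p.2) ∪ (Aᶜ ×ˢ A).filter (fun p => p.1 < p.2) := by
    ext p
    simp only [mem_filter, mem_univ, true_and, mem_union, mem_product, mem_compl]
    tauto
  rw [h4, sum_union, h2, h3]
  rw [disjoint_left]
  intro p hp hp'
  rw [mem_filter, mem_product] at hp hp'
  exact (mem_compl.1 hp'.1.1) hp.1.1

/-- an injection from the unit edges of the quotient -/
theorem exists_inj {β : Type} (x0 : β) (S : Finset β) :
    ∃ c : ℕ → β, (∀ j < S.card, c j ∈ S) ∧ ∀ i < S.card, ∀ j < S.card, c i = c j → i = j := by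
  refine ⟨fun j => if h : j < S.card then (S.equivFin.symm ⟨j, h⟩ : β) else x0, ?_, ?_⟩
  · intro j hj
    simp only [dif_pos hj]
    exact (S.equivFin.symm ⟨j, hj⟩).2
  · intro i hi j hj h
    simp only [dif_pos hi, dif_pos hj] at h
    have h1 := S.equivFin.symm.injective (Subtype.ext h)
    simpa using h1

/-- a spanning tree of a connected multigraph is `1`-thin -/
theorem exists_spanning [Nonempty V] (G : MGraph V) (k : ℕ) (hk : 0 < k)
    (hconn : G.EdgeConnected k) : ∃ T : SimpleGraph V, G.IsSpanningTree T ∧ G.Thin T 1 := by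
  classical
  let H : SimpleGraph V := SimpleGraph.fromRel fun u v => 0 < G.mult u v
  have hH : ∀ u v, H.Adj u v → 0 < G.mult u v := by
    intro u v h
    rcases h.2 with h | h
    · exact h
    · rw [G.symm]
      exact h
  have hHc : H.Connected := by
    rw [SimpleGraph.connected_iff]
    refine ⟨fun x y => ?_, inferInstance⟩
    by_contra hxy
    have h1 : (univ.filter fun z => H.Reachable x z) ≠ univ := by
      intro h
      have h2 : y ∈ univ.filter fun z => H.Reachable x z := by rw [h]; exact mem_univ _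
      exact hxy (mem_filter.1 h2).2
    have h2 := hconn _ ⟨x, mem_filter.2 ⟨mem_univ _, SimpleGraph.Reachable.refl x⟩⟩ h1
    have h3 : G.cut (univ.filter fun z => H.Reachable x z) = 0 := by
      unfold MGraph.cut
      refine sum_eq_zero fun u hu => sum_eq_zero fun v hv => ?_
      by_contra h4
      rw [mem_compl, mem_filter] at hv
      refine hv ⟨mem_univ _, (mem_filter.1 hu).2.trans (SimpleGraph.Adj.reachable ?_)⟩
      refine ⟨?_, Or.inl (Nat.pos_of_ne_zero h4)⟩
      rintro rfl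
      exact hv ⟨mem_univ _, (mem_filter.1 hu).2⟩
    have h5 := h2.trans (le_of_eq h3)
    omega
  obtain ⟨T, hTH, hT⟩ := hHc.exists_isTree_le
  refine ⟨T, ⟨hT, fun u v h => hH u v (hTH h)⟩, fun A _ _ => ?_⟩
  rw [one_mul]
  have h1 : {p : V × V | p.1 ∈ A ∧ p.2 ∉ A ∧ T.Adj p.1 p.2} ⊆
      (((A ×ˢ Aᶜ).filter fun p => 0 < G.mult p.1 p.2 : Finset (V × V)) : Set (V × V)) := by
    rintro ⟨u, v⟩ ⟨h1, h2, h3⟩
    rw [mem_coe, mem_filter, mem_product, mem_compl]
    exact ⟨⟨h1, h2⟩, hH u v (hTH h3)⟩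
  have h2 : treeCut T A ≤ ((A ×ˢ Aᶜ).filter fun p => 0 < G.mult p.1 p.2).card := by
    unfold treeCut
    refine (Set.ncard_le_ncard h1 (Finset.finite_toSet _)).trans ?_
    rw [Set.ncard_coe_finset]
  have h3 : ((A ×ˢ Aᶜ).filter fun p => 0 < G.mult p.1 p.2).card ≤ G.cut A := by
    unfold MGraph.cut
    rw [card_filter, ← sum_product']
    refine sum_le_sum fun p _ => ?_
    split_ifs with h
    · exact h
    · exact Nat.zero_le _
  exact_mod_cast h2.trans h3

theorem result [Nonempty V] (G : MGraph V) (k g l : ℕ) (φ : ℝ) (hk : 0 < k)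
    (hφ : 0 < φ) (hφ1 : φ ≤ 1) (hconn : G.EdgeConnected k) (f : V → Fin l)
    (hf : Function.Surjective f)
    (hexp : ∀ i, G.Expanding φ (univ.filter fun v => f v = i))
    (hgen : (G.quotient f).EulerGenusLE g) :
    ∃ T : SimpleGraph V, G.IsSpanningTree T ∧
      G.Thin T (160 * ((g : ℝ) + 1) / (φ ^ 2 * k)) ∧
      (320 * ((g : ℝ) + 1) / φ ^ 2 ≤ k → G.Thin T (1 / 2)) := by
  classical
  have hk0 : (0 : ℝ) < k := by exact_mod_cast hk
  have hφ2 : 0 < φ ^ 2 := by positivity
  have hφ21 : φ ^ 2 ≤ 1 := by nlinarith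
  have hg0 : (0 : ℝ) ≤ g := Nat.cast_nonneg _
  suffices h : ∃ T : SimpleGraph V, G.IsSpanningTree T ∧
      G.Thin T (160 * ((g : ℝ) + 1) / (φ ^ 2 * k)) by
    obtain ⟨T, hT, hthin⟩ := h
    refine ⟨T, hT, hthin, fun hkw A hA hA' => ?_⟩
    refine (hthin A hA hA').trans (mul_le_mul_of_nonneg_right ?_ (Nat.cast_nonneg _))
    rw [div_le_iff₀ hφ2] at hkw
    rw [div_le_div_iff₀ (by positivity) (by norm_num)]
    linarith
  by_cases hkg : k < 18 + 9 * g
  · obtain ⟨T, hT, hthin⟩ := exists_spanning G k hk hconn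
    refine ⟨T, hT, fun A hA hA' => (hthin A hA hA').trans
      (mul_le_mul_of_nonneg_right ?_ (Nat.cast_nonneg _))⟩
    rw [le_div_iff₀ (by positivity), one_mul]
    have h1 : (k : ℝ) < 18 + 9 * g := by exact_mod_cast hkg
    nlinarith
  push Not at hkg
  rcases subsingleton_or_nontrivial V with hsub | hnt
  · have hno : ∀ A : Finset V, A.Nonempty → A ≠ univ → False := by
      intro A hA hA'
      apply hA'
      obtain ⟨a, ha⟩ := hA
      exact Finset.eq_univ_of_forall fun v => by rw [Subsingleton.elim v a]; exact ha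
    refine ⟨⊥, ⟨⟨?_, SimpleGraph.isAcyclic_bot⟩, fun u v h => absurd h (by simp)⟩,
      fun A hA hA' => (hno A hA hA').elim⟩
    rw [SimpleGraph.connected_iff]
    exact ⟨fun u v => by rw [Subsingleton.elim u v], inferInstance⟩
  -- the weights
  let W : V → V → ℝ := fun u v => (G.mult u v : ℝ)
  have hW : ∀ u v, 0 ≤ W u v := fun u v => Nat.cast_nonneg _
  have hcut : ∀ A : Finset V, (G.cut A : ℝ) = Pool.Agent.H85.Thin.cut W A := by
    intro A
    unfold MGraph.cut Pool.Agent.H85.Thin.cut Pool.Agent.H85.Thin.E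
    rw [Finset.compl_eq_univ_sdiff]
    push_cast
    rfl
  have hvol : ∀ A : Finset V, (G.vol A : ℝ) = Pool.Agent.H85.Thin.E W A univ := by
    intro A
    unfold MGraph.vol Pool.Agent.H85.Thin.E
    push_cast
    rfl
  have hbet : ∀ A B : Finset V, (G.between A B : ℝ) = Pool.Agent.H85.Thin.E W A B := by
    intro A B
    unfold MGraph.between Pool.Agent.H85.Thin.E
    push_cast
    rfl
  have hdeg : ∀ v, (k : ℝ) ≤ Pool.Agent.H85.Thin.E W {v} univ := by
    intro v
    have h1 : (k : ℝ) ≤ G.cut {v} := by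
      have h2 : ({v} : Finset V) ≠ univ := by
        intro h
        obtain ⟨u, hu⟩ := exists_ne v
        have : u ∈ ({v} : Finset V) := by rw [h]; exact Finset.mem_univ _
        exact hu (Finset.mem_singleton.1 this)
      exact_mod_cast hconn {v} (Finset.singleton_nonempty v) h2
    rw [hcut] at h1
    exact h1.trans (Pool.Agent.H85.Thin.cut_le_vol hW _)
  have hpart : ∀ i, univ.filter (fun v => f v = i) = Pool.Agent.H85.Thin.part f i := fun i => rfl
  set H : MGraph (Fin l) := G.quotient f with hH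
  have hm : ∀ a b, a ≠ b → (H.mult a b : ℝ) =
      Pool.Agent.H85.Thin.E W (Pool.Agent.H85.Thin.part f a) (Pool.Agent.H85.Thin.part f b) := by
    intro a b hab
    show (((if a = b then 0 else
      ∑ u ∈ univ.filter (fun v => f v = a), ∑ v ∈ univ.filter (fun v => f v = b), G.mult u v) :
        ℕ) : ℝ) = _
    rw [if_neg hab]
    unfold Pool.Agent.H85.Thin.E
    push_cast
    rfl
  have hmn : ∀ a b, a ≠ b → H.mult a b =
      ∑ u ∈ Pool.Agent.H85.Thin.part f a, ∑ v ∈ Pool.Agent.H85.Thin.part f b, G.mult u v :=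
    fun a b hab => if_neg hab
  have hmE : ∀ A' : Finset (Fin l), ((H.edgeCut A').card : ℝ) = ∑ a ∈ A', ∑ b ∈ A'ᶜ,
      Pool.Agent.H85.Thin.E W (Pool.Agent.H85.Thin.part f a) (Pool.Agent.H85.Thin.part f b) := by
    intro A'
    rw [card_edgeCut]
    push_cast
    refine sum_congr rfl fun a ha => sum_congr rfl fun b hb => hm a b ?_
    intro h
    rw [h] at ha
    exact (mem_compl.1 hb) ha
  have hconnQ : ∀ A' : Finset (Fin l), A'.Nonempty → A' ≠ univ → k ≤ (H.edgeCut A').card := by
    intro A' hA1 hA2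
    have h1 : k ≤ G.cut (univ.filter fun x => f x ∈ A') := by
      refine hconn _ ?_ ?_
      · obtain ⟨a, ha⟩ := hA1
        obtain ⟨x, hx⟩ := hf a
        exact ⟨x, mem_filter.2 ⟨mem_univ _, by rw [hx]; exact ha⟩⟩
      · intro h
        apply hA2
        refine Finset.eq_univ_of_forall fun a => ?_
        obtain ⟨x, hx⟩ := hf a
        have h2 : x ∈ univ.filter fun x => f x ∈ A' := by rw [h]; exact mem_univ _
        rw [← hx]
        exact (mem_filter.1 h2).2
    refine h1.trans (le_of_eq ?_)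
    have hreal : (G.cut (univ.filter fun x => f x ∈ A') : ℝ) = (H.edgeCut A').card := by
      rw [hcut, hmE]
      have e1 : ∀ (X : Finset (Fin l)) (F : V → ℝ), ∑ a ∈ X,
          ∑ u ∈ Pool.Agent.H85.Thin.part f a, F u = ∑ u ∈ univ.filter (fun x => f x ∈ X), F u := by
        intro X F
        rw [← Finset.sum_fiberwise_of_maps_to (s := univ.filter (fun x => f x ∈ X)) (t := X)
          (g := f) (fun v hv => (mem_filter.1 hv).2)]
        refine sum_congr rfl fun a ha => sum_congr ?_ fun _ _ => rfl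
        ext x
        simp only [Pool.Agent.H85.Thin.mem_part, mem_filter, mem_univ, true_and]
        constructor
        · intro h
          rw [h]
          exact ⟨ha, rfl⟩
        · exact fun h => h.2
      have e2 : (univ.filter fun x => f x ∈ A'ᶜ) = univ \ univ.filter fun x => f x ∈ A' := by
        ext x
        simp only [mem_filter, mem_univ, true_and, mem_compl, mem_sdiff]
      unfold Pool.Agent.H85.Thin.cut Pool.Agent.H85.Thin.E
      symm
      calc ∑ a ∈ A', ∑ b ∈ A'ᶜ, ∑ u ∈ Pool.Agent.H85.Thin.part f a,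
            ∑ v ∈ Pool.Agent.H85.Thin.part f b, W u v
          = ∑ a ∈ A', ∑ u ∈ Pool.Agent.H85.Thin.part f a, ∑ b ∈ A'ᶜ,
            ∑ v ∈ Pool.Agent.H85.Thin.part f b, W u v := sum_congr rfl fun a _ => sum_comm
        _ = ∑ u ∈ univ.filter (fun x => f x ∈ A'), ∑ b ∈ A'ᶜ,
            ∑ v ∈ Pool.Agent.H85.Thin.part f b, W u v := e1 A' _
        _ = ∑ u ∈ univ.filter (fun x => f x ∈ A'), ∑ v ∈ univ \ univ.filter fun x => f x ∈ A',
            W u v := by
            refine sum_congr rfl fun u _ => ?_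
            rw [e1 A'ᶜ, e2]
    exact_mod_cast hreal
  -- the bundles of the quotient
  obtain ⟨Φ, _, _, side, hev, cls, hcls⟩ := hgen
  have hSurf : Pool.Agent.H89P.Surf H.edges (fun e => e.1) (fun e => e.2.1) side k g :=
    ⟨hev, hconnQ, cls, hcls⟩
  have v0 : V := Classical.arbitrary V
  have : Nonempty (Fin l) := ⟨f v0⟩
  set D : ℕ := k / (18 + 9 * g) with hDdef
  have hD : 1 ≤ D := (Nat.one_le_div_iff (by omega)).2 hkg
  have hDk : (18 + 9 * g) * D ≤ k := Nat.mul_div_le _ _
  have hkD : k < (18 + 9 * g) * (D + 1) := Nat.lt_mul_div_succ _ (by omega)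
  obtain ⟨B, R, hB1, hB2, hR1, hR2, hch⟩ := Pool.Agent.H89P.bundles hSurf hD hDk
  -- the injection of the unit edges
  have hcardS : ∀ a b : Fin l, a ≠ b →
      (Pool.Agent.H89Q.unitE G.mult f {(a, b)}).card = H.mult a b := by
    intro a b hab
    rw [Pool.Agent.H89Q.card_unitE, sum_singleton, hmn a b hab]
  choose c hc1 hc2 using fun a b : Fin l =>
    exists_inj (v0, v0, 0) (Pool.Agent.H89Q.unitE G.mult f {(a, b)})
  let β : Fin l × Fin l × ℕ → V × V × ℕ := fun e => c e.1 e.2.1 e.2.2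
  have hβ : ∀ e ∈ H.edges, f (β e).1 = e.1 ∧ f (β e).2.1 = e.2.1 ∧
      (β e).2.2 < G.mult (β e).1 (β e).2.1 := by
    intro e he
    obtain ⟨h1, h2⟩ := mem_edges.1 he
    have h3 := hc1 e.1 e.2.1 e.2.2 (by rw [hcardS _ _ h1.ne]; exact h2)
    rw [Pool.Agent.H89Q.mem_unitE, mem_singleton, Prod.mk.injEq] at h3
    exact ⟨h3.1.1, h3.1.2, h3.2⟩
  have hβinj : ∀ e ∈ H.edges, ∀ e' ∈ H.edges, β e = β e' → e = e' := by
    intro e he e' he' h
    obtain ⟨h1, h2, -⟩ := hβ e he
    obtain ⟨h1', h2', -⟩ := hβ e' he'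
    have h3 : e.1 = e'.1 := by rw [← h1, ← h1', h]
    have h4 : e.2.1 = e'.2.1 := by rw [← h2, ← h2', h]
    obtain ⟨m1, m2⟩ := mem_edges.1 he
    obtain ⟨m1', m2'⟩ := mem_edges.1 he'
    obtain ⟨a, b, j⟩ := e
    obtain ⟨a', b', j'⟩ := e'
    simp only at h3 h4 m1 m2 m1' m2'
    subst h3
    subst h4
    have h5 : c a b j = c a b j' := h
    have h6 := hc2 a b j (by rw [hcardS _ _ m1.ne]; exact m2) j'
      (by rw [hcardS _ _ m1.ne]; exact m2') h5
    rw [h6]
  let F : Fin B.card → Finset (V × V × ℕ) := fun i => ((B.equivFin.symm i : Finset _)).image β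
  have hFB : ∀ i, ((B.equivFin.symm i : Finset (Fin l × Fin l × ℕ))) ∈ B :=
    fun i => (B.equivFin.symm i).2
  -- pulling back a choice
  have hpull : ∀ ch : Fin B.card → V × V × ℕ, (∀ i, ch i ∈ F i) →
      ∃ ch' : Finset (Fin l × Fin l × ℕ) → Fin l × Fin l × ℕ, (∀ X ∈ B, ch' X ∈ X) ∧
        ∀ i, β (ch' (B.equivFin.symm i)) = ch i := by
    intro ch hchF
    choose c' hc'1 hc'2 using fun i => mem_image.1 (hchF i)
    let x0 : Fin l × Fin l × ℕ := (f v0, f v0, 0)
    refine ⟨fun X => if h : X ∈ B then c' (B.equivFin ⟨X, h⟩) else x0, ?_, ?_⟩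
    · intro X hX
      simp only [dif_pos hX]
      have h1 := hc'1 (B.equivFin ⟨X, hX⟩)
      rw [Equiv.symm_apply_apply] at h1
      exact h1
    · intro i
      simp only [dif_pos (hFB i)]
      have h1 : B.equivFin ⟨(B.equivFin.symm i : Finset _), hFB i⟩ = i := by
        have h2 : (⟨(B.equivFin.symm i : Finset _), hFB i⟩ : {x // x ∈ B}) = B.equivFin.symm i :=
          Subtype.ext rfl
        rw [h2, Equiv.apply_symm_apply]
      rw [h1]
      exact hc'2 i
  have hcross : ∀ e ∈ H.edges, ∀ A : Finset (Fin l),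
      (e ∈ Pool.Agent.H89P.cutE H.edges (fun e => e.1) (fun e => e.2.1) A ↔
        Pool.Agent.H89Q.Cross A (f (β e).1, f (β e).2.1)) := by
    intro e he A
    obtain ⟨h1, h2, -⟩ := hβ e he
    unfold Pool.Agent.H89P.cutE Pool.Agent.H89Q.Cross
    rw [mem_filter, h1, h2]
    exact ⟨fun h => h.2, fun h => ⟨he, h⟩⟩
  have hcutE : ∀ A : Finset (Fin l),
      Pool.Agent.H89P.cutE H.edges (fun e => e.1) (fun e => e.2.1) A = H.edgeCut A := fun A => rfl
  obtain ⟨T, hT1, hT2, hT3⟩ := Pool.Agent.H89P.glueL G.mult G.symm hk0 hφ hφ1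
    (fun A hA hA' => by
      have h1 : (k : ℝ) ≤ G.cut A := by exact_mod_cast hconn A hA hA'
      rw [hcut] at h1
      exact h1)
    hdeg f
    (fun i => by
      obtain ⟨x, hx⟩ := hf i
      exact ⟨x, Pool.Agent.H85.Thin.mem_part.2 hx⟩)
    (fun i B hB => by
      have h1 := hexp i B (by rw [hpart]; exact hB)
      rw [hpart, hvol, hvol, hbet] at h1
      rcases le_total (Pool.Agent.H85.Thin.E W B univ)
        (Pool.Agent.H85.Thin.E W (Pool.Agent.H85.Thin.part f i \ B) univ) with h | h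
      · rw [min_eq_left h] at h1
        exact Or.inl h1
      · rw [min_eq_right h] at h1
        exact Or.inr h1)
    (q := D) (by omega) F
    (fun i e he => by
      obtain ⟨x, hx, rfl⟩ := mem_image.1 he
      have hxE := (hB1 _ (hFB i)).1 hx
      obtain ⟨h1, h2, h3⟩ := hβ x hxE
      refine ⟨h3, ?_⟩
      rw [h1, h2]
      exact (mem_edges.1 hxE).1.ne)
    (fun i => by
      rw [card_image_of_injOn]
      · exact (hB1 _ (hFB i)).2.ge
      · intro x hx y hy hxy
        exact hβinj x ((hB1 _ (hFB i)).1 hx) y ((hB1 _ (hFB i)).1 hy) hxy)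
    (fun i j hij => by
      rw [disjoint_left]
      intro e he he'
      obtain ⟨x, hx, rfl⟩ := mem_image.1 he
      obtain ⟨y, hy, hxy⟩ := mem_image.1 he'
      have h1 := hβinj y ((hB1 _ (hFB j)).1 hy) x ((hB1 _ (hFB i)).1 hx) hxy
      rw [h1] at hy
      have h2 := hB2 (hFB i) (hFB j) (fun h => hij (B.equivFin.symm.injective (Subtype.ext h)))
      exact disjoint_left.1 h2 hx hy)
    (R.image β)
    (fun e he => by
      obtain ⟨x, hx, rfl⟩ := mem_image.1 he
      have hxE := hR1 hx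
      obtain ⟨h1, h2, h3⟩ := hβ x hxE
      refine ⟨h3, ?_⟩
      rw [h1, h2]
      exact (mem_edges.1 hxE).1.ne)
    (fun ch hchF A hA hA' => by
      obtain ⟨ch', h1, h2⟩ := hpull ch hchF
      rcases (hch ch' h1).2 A hA hA' with ⟨X, hX, hXA⟩ | ⟨e, he, heA⟩
      · left
        refine ⟨B.equivFin ⟨X, hX⟩, ?_⟩
        have h3 := h2 (B.equivFin ⟨X, hX⟩)
        rw [Equiv.symm_apply_apply] at h3
        rw [← h3]
        exact (hcross _ ((hB1 X hX).1 (h1 X hX)) A).1 hXA
      · right
        exact ⟨β e, mem_image_of_mem _ he, (hcross _ (hR1 he) A).1 heA⟩)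
    (α := 1 / D) (by positivity)
    (fun ch hchF A J hJ => by
      obtain ⟨ch', h1, h2⟩ := hpull ch hchF
      have h3 := (hch ch' h1).1 A
      have h4 : J.card ≤ (B.filter fun X => ch' X ∈
          Pool.Agent.H89P.cutE H.edges (fun e => e.1) (fun e => e.2.1) A).card := by
        refine card_le_card_of_injOn (fun i => (B.equivFin.symm i : Finset _)) ?_ ?_
        · intro i hi
          rw [mem_coe] at hi
          rw [mem_coe, mem_filter]
          refine ⟨hFB i, (hcross _ ((hB1 _ (hFB i)).1 (h1 _ (hFB i))) A).2 ?_⟩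
          rw [h2 i]
          exact hJ i hi
        · intro i _ j _ hij
          exact B.equivFin.symm.injective (Subtype.ext hij)
      rw [hcutE] at h3 h4
      have h5 : D * J.card ≤ (H.edgeCut A).card := (Nat.mul_le_mul_left _ h4).trans h3
      rw [← hmE, one_div, inv_mul_eq_div, le_div_iff₀ (by exact_mod_cast hD), mul_comm]
      exact_mod_cast h5)
  refine ⟨T, ⟨hT1, hT2⟩, fun A hA hA' => ?_⟩
  refine (hT3 A).trans ?_
  rw [hcut]
  refine mul_le_mul_of_nonneg_right ?_ (by rw [← hcut]; exact Nat.cast_nonneg _)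
  -- the final estimate
  have hD0 : (0 : ℝ) < D := by exact_mod_cast hD
  have hRc : ((R.image β).card : ℝ) ≤ g := by exact_mod_cast card_image_le.trans hR2
  have hkD' : (k : ℝ) ≤ (18 + 9 * g) * (2 * D) := by
    have h1 : (k : ℝ) < (18 + 9 * g) * (D + 1) := by exact_mod_cast hkD
    have h2 : (1 : ℝ) ≤ D := by exact_mod_cast hD
    nlinarith
  have hinv : 1 / (D : ℝ) ≤ (36 + 18 * g) * (1 / k) := by
    rw [mul_one_div, div_le_div_iff₀ hD0 hk0]
    linarith
  have hφinv : 1 / φ ≤ 1 / φ ^ 2 := by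
    apply one_div_le_one_div_of_le hφ2
    nlinarith
  have hφ3 : 1 ≤ 1 / φ ^ 2 := by
    rw [le_div_iff₀ hφ2]
    linarith
  set y : ℝ := 1 / φ ^ 2 with hy
  set z : ℝ := 1 / (k : ℝ) with hz
  have hz0 : 0 < z := by positivity
  have hy0 : 0 < y := by positivity
  have hx0 : 0 < 1 / φ := by positivity
  have e1 : 1 / (D : ℝ) * (1 + 1 / φ) ≤ (72 + 36 * g) * (y * z) := by
    have h2 : 1 + 1 / φ ≤ 2 * y := by linarith
    calc 1 / (D : ℝ) * (1 + 1 / φ) ≤ ((36 + 18 * g) * z) * (2 * y) :=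
          mul_le_mul hinv h2 (by positivity) (by positivity)
      _ = _ := by ring
  have e2 : 2 * (1 / (D : ℝ) + 4 / k) / φ ≤ (80 + 36 * g) * (y * z) := by
    have h1 : 1 / (D : ℝ) + 4 / k ≤ (40 + 18 * g) * z := by
      have h2 : 4 / (k : ℝ) = 4 * z := by rw [hz]; ring
      rw [h2]
      linarith
    have h3 : 2 * (1 / (D : ℝ) + 4 / k) / φ = 2 * ((1 / (D : ℝ) + 4 / k) * (1 / φ)) := by ring
    rw [h3]
    have h4 := mul_le_mul h1 hφinv hx0.le (by positivity)
    linarith
  have e3 : 5 / (φ ^ 2 * k) = 5 * (y * z) := by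
    rw [hy, hz]
    field_simp
  have e4 : ((R.image β).card : ℝ) / k ≤ g * (y * z) := by
    have h1 : ((R.image β).card : ℝ) / k = ((R.image β).card : ℝ) * z := by rw [hz]; ring
    rw [h1]
    have h2 : z ≤ y * z := by nlinarith
    calc ((R.image β).card : ℝ) * z ≤ g * z := mul_le_mul_of_nonneg_right hRc hz0.le
      _ ≤ g * (y * z) := mul_le_mul_of_nonneg_left h2 hg0
  have e5 : 160 * ((g : ℝ) + 1) / (φ ^ 2 * k) = 160 * ((g : ℝ) + 1) * (y * z) := by
    rw [hy, hz]
    field_simp
  rw [e5, e3]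
  have h6 : 0 < y * z := by positivity
  nlinarith

end Pool.Agent.Results.MP_e3de44_co.SurfaceParts
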