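import Pool.Agent.H89Q.HostMain

/-!
# Thin spanning trees in multigraphs with tree-partitions of width `O(k / multiplicity)`

For all `C` and `Δ` there is a constant `c` such that every `k`-edge connected multigraph with edge
multiplicities at most `μ` which has a tree-partition, over a tree of maximum degree at most `Δ`, into
sets of at most `b` vertices, where `b μ ≤ C k`, has a `c / k`-thin spanning tree.
-/

namespace Pool.Agent.Results.MP_e3de44_co.TreePartition

open Finset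

/-- A loopless multigraph on `V`: `mult u v` is the number of parallel edges joining `u` and `v`. -/
structure MGraph (V : Type) where
  mult : V → V → ℕ
  symm : ∀ u v, mult u v = mult v u
  loopless : ∀ v, mult v v = 0

variable {V : Type} [Fintype V] [DecidableEq V]

/-- the number of edges with exactly one end in `A` -/
def MGraph.cut (G : MGraph V) (A : Finset V) : ℕ := ∑ u ∈ A, ∑ v ∈ Aᶜ, G.mult u v

/-- every cut has at least `k` edges -/
def MGraph.EdgeConnected (G : MGraph V) (k : ℕ) : Prop :=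
  ∀ A : Finset V, A.Nonempty → A ≠ univ → k ≤ G.cut A

omit [DecidableEq V] in
/-- the vertices are distributed over the nodes of a tree `D` of maximum degree at most `Δ`, at most
`b` vertices at every node, such that every edge joins two vertices at the same node or at two
adjacent nodes: `G` is contained in the strong product of `D` and a complete graph on `b` vertices -/
def MGraph.HasTreePartition (G : MGraph V) (Δ b : ℕ) : Prop :=
  ∃ (ι : Type) (_ : Fintype ι) (D : SimpleGraph ι) (z : V → ι), D.IsTree ∧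
    (∀ x, Set.ncard {y | D.Adj x y} ≤ Δ) ∧
    (∀ x, Set.ncard {v | z v = x} ≤ b) ∧
    ∀ u v, 0 < G.mult u v → z u = z v ∨ D.Adj (z u) (z v)

/-- `T` is a spanning tree of `G` (one of the parallel edges `uv` is in the tree when
`T.Adj u v`) -/
def MGraph.IsSpanningTree (G : MGraph V) (T : SimpleGraph V) : Prop :=
  T.IsTree ∧ ∀ u v, T.Adj u v → 0 < G.mult u v

/-- the number of edges of `T` with exactly one end in `A` -/
noncomputable def treeCut (T : SimpleGraph V) (A : Finset V) : ℕ :=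
  Set.ncard {p : V × V | p.1 ∈ A ∧ p.2 ∉ A ∧ T.Adj p.1 p.2}

/-- `T` is `α`-thin with respect to `G` -/
def MGraph.Thin (G : MGraph V) (T : SimpleGraph V) (α : ℝ) : Prop :=
  ∀ A : Finset V, A.Nonempty → A ≠ univ → (treeCut T A : ℝ) ≤ α * G.cut A

theorem result (C : ℝ) (Δ : ℕ) : ∃ c : ℝ, ∀ (V : Type) [Fintype V] [DecidableEq V] [Nonempty V]
    (G : MGraph V) (k μ b : ℕ), 0 < k → G.EdgeConnected k → (∀ u v, G.mult u v ≤ μ) →
    G.HasTreePartition Δ b → (b : ℝ) * μ ≤ C * k →
    ∃ T : SimpleGraph V, G.IsSpanningTree T ∧ G.Thin T (c / k) ∧ (2 * c ≤ k → G.Thin T (1 / 2)) := by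
  classical
  -- the constants
  obtain ⟨Δ', hΔ'⟩ : ∃ Δ', Δ' = Δ + 1 := ⟨_, rfl⟩
  obtain ⟨h', hh'⟩ := pow_unbounded_of_one_lt (16 * (Δ' : ℝ) * ((Δ' : ℝ) + 1) * C ^ 2)
    (by norm_num : (1 : ℝ) < 4)
  obtain ⟨h, hh⟩ : ∃ h, h = h' + 1 := ⟨_, rfl⟩
  have hhC : 16 * (Δ' : ℝ) * ((Δ' : ℝ) + 1) * C ^ 2 < 4 ^ h := by
    refine lt_of_lt_of_le hh' ?_
    rw [hh]
    exact pow_le_pow_right₀ (by norm_num) (Nat.le_succ _)
  obtain ⟨r, hr⟩ := exists_nat_gt
    (16 * (Δ' : ℝ) * (((4 * h + 2 : ℕ) : ℝ) * (Δ' : ℝ) ^ (4 * h + 2)) * C)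
  obtain ⟨w, hw⟩ : ∃ w, w = 3 * r * (Δ' + 1) + 1 := ⟨_, rfl⟩
  obtain ⟨φ, hφ⟩ : ∃ φ : ℝ, φ = 1 / (8 * (Δ' : ℝ)) / (24 * ((r : ℝ) + 2) ^ 2) := ⟨_, rfl⟩
  refine ⟨200 * (w : ℝ) * ((w : ℝ) + 1) * (4 * (w : ℝ) + 5) * 6 ^ w / φ ^ 2, ?_⟩
  intro V _ _ _ G k μ b hk hconn hμ htp hC
  rcases subsingleton_or_nontrivial V with hsub | hnt
  · have hno : ∀ A : Finset V, A.Nonempty → A ≠ univ → False := by
      intro A hA hA'
      apply hA'
      obtain ⟨a, ha⟩ := hA
      exact Finset.eq_univ_of_forall fun v => by rw [Subsingleton.elim v a]; exact ha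
    refine ⟨⊥, ⟨⟨?_, SimpleGraph.isAcyclic_bot⟩, fun u v h => absurd h (by simp)⟩,
      fun A hA hA' => (hno A hA hA').elim, fun _ A hA hA' => (hno A hA hA').elim⟩
    rw [SimpleGraph.connected_iff]
    exact ⟨fun u v => by rw [Subsingleton.elim u v], inferInstance⟩
  let W : V → V → ℝ := fun u v => (G.mult u v : ℝ)
  have hW : ∀ u v, 0 ≤ W u v := fun u v => Nat.cast_nonneg _
  have hcut : ∀ A : Finset V, (G.cut A : ℝ) = Pool.Agent.H85.Thin.cut W A := by
    intro A
    unfold MGraph.cut Pool.Agent.H85.Thin.cut Pool.Agent.H85.Thin.E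
    rw [Finset.compl_eq_univ_sdiff]
    push_cast
    rfl
  have hk0 : (0 : ℝ) < k := by exact_mod_cast hk
  have hdeg : ∀ v, (k : ℝ) ≤ Pool.Agent.H85.Thin.E W {v} univ := by
    intro v
    have h1 : (k : ℝ) ≤ G.cut {v} := by
      have h2 : ({v} : Finset V) ≠ univ := by
        intro h
        obtain ⟨u, hu⟩ := exists_ne v
        have : u ∈ ({v} : Finset V) := by rw [h]; exact Finset.mem_univ _
        exact hu (Finset.mem_singleton.1 this)
      exact_mod_cast hconn {v} (Finset.singleton_nonempty v) h2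
    rw [hcut] at h1
    exact h1.trans (Pool.Agent.H85.Thin.cut_le_vol hW _)
  obtain ⟨ι, _, D, z, hD, hDΔ, hb, hz⟩ := htp
  obtain ⟨T, hT1, hT2, hT3⟩ := Pool.Agent.H89Q.host_thin (h := h) (r := r) (w := w) G.mult
    G.symm G.loopless hk
    (fun A hA hA' => by
      rw [← hcut]
      exact_mod_cast hconn A hA hA') hdeg hμ (by omega : 1 ≤ Δ') D hD
    (fun x => (hDΔ x).trans (by omega)) z
    (fun x => by
      have h1 := hb x
      rwa [Set.ncard_eq_toFinset_card', Set.toFinset_ofPred] at h1) hz hC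
    (by omega : 1 ≤ h) hhC (by linarith) (by omega : 0 < w) (by omega)
  rw [← hφ] at hT3
  have hthin : G.Thin T
      (200 * (w : ℝ) * ((w : ℝ) + 1) * (4 * (w : ℝ) + 5) * 6 ^ w / φ ^ 2 / k) := by
    intro A _ _
    rw [div_div, hcut]
    exact hT3 A
  refine ⟨T, ⟨hT1, hT2⟩, hthin, fun hck A hA hA' => ?_⟩
  refine (hthin A hA hA').trans (mul_le_mul_of_nonneg_right ?_ (Nat.cast_nonneg _))
  rw [div_le_div_iff₀ hk0 (by norm_num)]
  linarith

end Pool.Agent.Results.MP_e3de44_co.TreePartition
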